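import Mathlib

open Filter Topology Polynomial WithZero

namespace Pool.Agent.Results.MP_e8c887_nt.IrrationalHeight

/-- The Weil height of the point `[z : 1]` of the projective line over `k(t)`: the larger of the
degrees of the numerator and the denominator of `z` in lowest terms. -/
noncomputable def height {k : Type} [Field k] (z : RatFunc k) : ℕ :=
  max z.num.natDegree z.denom.natDegree

abbrev R := (ZMod 2)[X]
abbrev K := RatFunc (ZMod 2)

noncomputable def QQ (a b : R) : R := (a + b) ^ 2 + X * b ^ 2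
noncomputable def NN (a b : R) : R := a * (a + b) * QQ a b + X ^ 2 * b ^ 4
noncomputable def DD (a b : R) : R := X * b ^ 2 * QQ a b

def Inv (p : R × R) : Prop :=
  IsCoprime p.1 p.2 ∧ p.2.coeff 0 = 1 ∧ p.2.natDegree + 2 ≤ p.1.natDegree

open Classical in
noncomputable def cc (p : R × R) : ℕ := if p.1.coeff 0 = 0 then 1 else 2

lemma two_eq : (2 : R) = 0 := CharTwo.two_eq_zero

lemma zmod_ne : ∀ a : ZMod 2, a ≠ 0 → a = 1 := by decide

lemma step (p : R × R) (hp : Inv p) : ∃ q : R × R, Inv q ∧ X ^ cc p * q.1 = NN p.1 p.2 ∧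
    X ^ cc p * q.2 = DD p.1 p.2 ∧ q.1.natDegree + cc p = 4 * p.1.natDegree ∧
    q.2.natDegree + cc p = 1 + 2 * p.2.natDegree + 2 * p.1.natDegree := by
  obtain ⟨a, b⟩ := p
  obtain ⟨h1, h2, h3⟩ := hp
  simp only at h1 h2 h3 ⊢
  have hb : b ≠ 0 := by rintro rfl; simp at h2
  have ha : a ≠ 0 := by rintro rfl; simp at h3
  have d1 : (a + b).natDegree = a.natDegree := natDegree_add_eq_left_of_natDegree_lt (by omega)
  have hab : a + b ≠ 0 := by intro h; rw [h] at d1; simp at d1; omega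
  have d2 : (QQ a b).natDegree = 2 * a.natDegree := by
    rw [QQ, natDegree_add_eq_left_of_natDegree_lt, natDegree_pow, d1]
    rw [natDegree_pow, d1, natDegree_mul X_ne_zero (pow_ne_zero _ hb), natDegree_pow, natDegree_X]
    omega
  have hQ : QQ a b ≠ 0 := by intro h; rw [h] at d2; simp at d2; omega
  have d3 : (NN a b).natDegree = 4 * a.natDegree := by
    have e : (a * (a + b) * QQ a b).natDegree = 4 * a.natDegree := by
      rw [natDegree_mul (mul_ne_zero ha hab) hQ, natDegree_mul ha hab, d1, d2]; ring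
    rw [NN, natDegree_add_eq_left_of_natDegree_lt, e]
    rw [e, natDegree_mul (pow_ne_zero _ X_ne_zero) (pow_ne_zero _ hb), natDegree_pow, natDegree_pow,
      natDegree_X]
    omega
  have d4 : (DD a b).natDegree = 1 + 2 * b.natDegree + 2 * a.natDegree := by
    rw [DD, natDegree_mul (mul_ne_zero X_ne_zero (pow_ne_zero _ hb)) hQ,
      natDegree_mul X_ne_zero (pow_ne_zero _ hb), natDegree_pow, natDegree_X, d2]
  obtain ⟨a', b', e1, e2, e3⟩ : ∃ a' b' : R, X ^ cc (a, b) * a' = NN a b ∧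
      X ^ cc (a, b) * b' = DD a b ∧ b'.coeff 0 = 1 := by
    by_cases h0 : a.coeff 0 = 0
    · obtain ⟨A, hA⟩ := X_dvd_iff.mpr h0
      refine ⟨A * (a + b) * QQ a b + X * b ^ 4, b ^ 2 * QQ a b, ?_, ?_, ?_⟩
      · simp only [cc, h0, if_true, NN]; linear_combination (-(a + b) * QQ a b) * hA
      · simp only [cc, h0, if_true, DD]; ring
      · simp [QQ, coeff_zero_eq_eval_zero] at h0 h2 ⊢; simp [h0, h2]
    · have h0' := zmod_ne _ h0
      obtain ⟨B, hB⟩ := (X_dvd_iff (f := a + b)).mpr (by rw [coeff_add, h0', h2]; rfl)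
      refine ⟨a * B * (X * B ^ 2 + b ^ 2) + b ^ 4, b ^ 2 * (X * B ^ 2 + b ^ 2), ?_, ?_, ?_⟩
      · simp only [cc, h0, if_false, NN, QQ, hB]; ring
      · simp only [cc, h0, if_false, DD, QQ, hB]; ring
      · simp [coeff_zero_eq_eval_zero] at h2 ⊢; simp [h2]
  have hb' : b' ≠ 0 := by rintro rfl; simp at e3
  have ha' : a' ≠ 0 := by
    rintro rfl; rw [← e1] at d3; simp at d3; omega
  have f1 : a'.natDegree + cc (a, b) = 4 * a.natDegree := by
    rw [← d3, ← e1, natDegree_mul (pow_ne_zero _ X_ne_zero) ha']; simp [add_comm]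
  have f2 : b'.natDegree + cc (a, b) = 1 + 2 * b.natDegree + 2 * a.natDegree := by
    rw [← d4, ← e2, natDegree_mul (pow_ne_zero _ X_ne_zero) hb']; simp [add_comm]
  refine ⟨(a', b'), ⟨?_, e3, by simp only; omega⟩, e1, e2, f1, f2⟩
  refine isCoprime_of_prime_dvd (fun h => hb' h.2) fun π hπ p1 p2 => ?_
  have q1 : π ∣ NN a b := e1 ▸ p1.mul_left _
  have q2 : π ∣ DD a b := e2 ▸ p2.mul_left _
  have nX : ¬ π ∣ X := fun h => by
    have h' := (hπ.irreducible.associated_of_dvd irreducible_X h).symm.dvd.trans p2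
    rw [X_dvd_iff, e3] at h'
    exact one_ne_zero h'
  have nb : ¬ π ∣ b := fun h => by
    have : π ∣ a ^ 4 := by
      have e : a ^ 4 = NN a b - b * (a * QQ a b + a ^ 2 * (2 * a + b + X * b) + X ^ 2 * b ^ 3) := by
        simp only [NN, QQ]; ring
      rw [e]; exact dvd_sub q1 (h.mul_right _)
    exact hπ.not_isUnit (h1.isUnit_of_dvd' (hπ.dvd_of_dvd_pow this) h)
  rcases hπ.dvd_or_dvd q2 with h | h
  · rcases hπ.dvd_or_dvd h with h | h
    · exact nX h
    · exact nb (hπ.dvd_of_dvd_pow h)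
  · have : π ∣ X ^ 2 * b ^ 4 := (dvd_add_right (h.mul_left _)).mp q1
    rcases hπ.dvd_or_dvd this with h | h
    · exact nX (hπ.dvd_of_dvd_pow h)
    · exact nb (hπ.dvd_of_dvd_pow h)

lemma height_eq {a b : R} (h : IsCoprime a b) (hb : b ≠ 0) :
    height (algebraMap R K a / algebraMap R K b) = max a.natDegree b.natDegree := by
  set z := algebraMap R K a / algebraMap R K b with hz
  have e : z.num * b = a * z.denom := (RatFunc.num_mul_eq_mul_denom_iff hb).mpr hz
  have c := z.isCoprime_num_denom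
  have a1 : Associated z.num a := associated_of_dvd_dvd
    (c.dvd_of_dvd_mul_right (e ▸ dvd_mul_right _ _)) (h.dvd_of_dvd_mul_right (e ▸ dvd_mul_right _ _))
  have a2 : Associated z.denom b := associated_of_dvd_dvd
    (c.symm.dvd_of_dvd_mul_left (e ▸ dvd_mul_left _ _))
    (h.symm.dvd_of_dvd_mul_left (e ▸ dvd_mul_left _ _))
  rw [height, natDegree_eq_of_degree_eq (degree_eq_degree_of_associated a1),
    natDegree_eq_of_degree_eq (degree_eq_degree_of_associated a2)]

noncomputable def vv : Valuation K ℤᵐ⁰ := (Polynomial.idealX (ZMod 2)).valuation K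

lemma vv_X : vv RatFunc.X = exp (-1) := Polynomial.valuation_X_eq_neg_one _

lemma lt1 : exp (-1 : ℤ) < 1 := by rw [← exp_zero, exp_lt_exp]; norm_num

lemma vv_le (p : R) : vv (algebraMap R K p) ≤ 1 :=
  (Polynomial.idealX (ZMod 2)).valuation_le_one (K := K) p

lemma vv_lt {p : R} (h : p.coeff 0 = 0) : vv (algebraMap R K p) < 1 := by
  obtain ⟨q, rfl⟩ := X_dvd_iff.mpr h
  rw [map_mul, map_mul, RatFunc.algebraMap_X, vv_X]
  exact mul_lt_one_of_lt_of_le lt1 (vv_le q)

lemma vv_eq {p : R} (h : p.coeff 0 = 1) : vv (algebraMap R K p) = 1 := by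
  have := vv_lt (p := p - 1) (by simp [h])
  rw [show p = 1 + (p - 1) by ring, map_add, map_one, vv.map_add_eq_of_lt_left (by simpa using this),
    map_one]

lemma le_of_lt_one {a : ℤᵐ⁰} (h : a < 1) : a ≤ exp (-1) := by
  induction a using WithZero.expRecOn with
  | zero => exact zero_le
  | exp a => rw [← exp_zero, exp_lt_exp] at h; rw [exp_le_exp]; omega

lemma vv_Q {z : K} (hz : vv z ≤ 1) : exp (-1) ≤ vv ((z + 1) ^ 2 + RatFunc.X) := by
  have h1 : vv (z + 1) ≤ 1 := vv.map_add_le hz (by simp)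
  rcases h1.eq_or_lt with h | h
  · rw [vv.map_add_eq_of_lt_left, map_pow, h, one_pow]
    · exact lt1.le
    · rw [map_pow, h, one_pow, vv_X]; exact lt1
  · rw [vv.map_add_eq_of_lt_right, vv_X]
    rw [vv_X, map_pow]
    refine (pow_le_pow_left' (le_of_lt_one h) 2).trans_lt ?_
    rw [← exp_nsmul, exp_lt_exp]; norm_num

/-- the map -/
noncomputable def ff (z : K) : K :=
  z * (z + 1) / RatFunc.X + RatFunc.X / ((z + 1) ^ 2 + RatFunc.X)

lemma expand {z w : K} (hz : vv z ≤ 1) (hw : vv w ≤ 1) (h : vv (z - w) < 1) :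
    vv (ff z - ff w) = exp 1 * vv (z - w) := by
  have q1 := vv_Q hz
  have q2 := vv_Q hw
  have n1 : (z + 1) ^ 2 + RatFunc.X ≠ 0 := fun h => by rw [h] at q1; simp at q1
  have n2 : (w + 1) ^ 2 + RatFunc.X ≠ 0 := fun h => by rw [h] at q2; simp at q2
  have n3 : (RatFunc.X : K) ≠ 0 := RatFunc.X_ne_zero
  have h2 : (2 : K) = 0 := by
    have := congrArg (algebraMap R K) two_eq
    rwa [map_ofNat, map_zero] at this
  have e0 : ff z - ff w = ((1 + (z + w)) / RatFunc.X - RatFunc.X * (z + w + 2) /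
      (((z + 1) ^ 2 + RatFunc.X) * ((w + 1) ^ 2 + RatFunc.X))) * (z - w) := by
    simp only [ff]; field_simp; ring
  have e1 : z + w = z - w := by linear_combination w * h2
  rw [h2, add_zero, e1] at e0
  have a1 : vv ((1 + (z - w)) / RatFunc.X) = exp 1 := by
    rw [map_div₀, vv.map_add_eq_of_lt_left (by simpa using h), vv_X]; simp
  rw [e0, map_mul, vv.map_sub_eq_of_lt_left, a1]
  rw [a1, map_div₀, map_mul, map_mul, vv_X, div_lt_iff₀
    (mul_pos (exp_pos.trans_le q1) (exp_pos.trans_le q2))]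
  calc exp (-1) * vv (z - w) < exp (-1) * 1 := mul_lt_mul_of_pos_left h exp_pos
    _ = exp 1 * (exp (-1) * exp (-1)) := by rw [← exp_add, ← exp_add]; simp
    _ ≤ _ := mul_le_mul_right (mul_le_mul' q1 q2) _

lemma digits (c : ℕ → ℕ) (h : ℕ → ℕ) (h1 : ∀ n, 1 ≤ c n ∧ c n ≤ 2)
    (h2 : ∀ n, h (n + 1) + c n = 4 * h n)
    (h3 : ∀ n m, (∀ j, c (n + j) = c (m + j)) → n = m) :
    ∃ L : ℝ, Irrational L ∧ Tendsto (fun n => (h n : ℝ) / 4 ^ n) atTop (𝓝 L) := by
  set y : ℕ → ℝ := fun n => (h n : ℝ) / 4 ^ n with hy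
  have h2' : ∀ n, (h (n + 1) : ℝ) = 4 * h n - c n := fun n => by
    have : ((h (n + 1) + c n : ℕ) : ℝ) = (4 * h n : ℕ) := by rw [h2]
    push_cast at this; linarith
  have c1 : ∀ n, (1:ℝ) ≤ c n := fun n => by exact_mod_cast (h1 n).1
  have c2 : ∀ n, (c n : ℝ) ≤ 2 := fun n => by exact_mod_cast (h1 n).2
  have hs : ∀ (a : ℝ) n, y (n + 1) - a / 4 ^ (n + 1) = y n - a / 4 ^ n + (3 * a - c n) / 4 ^ (n + 1) :=
    fun a n => by simp only [hy, h2']; field_simp; ring
  have anti : Antitone fun n => y n - (1 / 3) / 4 ^ n := antitone_nat_of_succ_le fun n => by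
    rw [hs, add_le_iff_nonpos_right]
    exact div_nonpos_of_nonpos_of_nonneg (by linarith [c1 n]) (by positivity)
  have mono : Monotone fun n => y n - (2 / 3) / 4 ^ n := monotone_nat_of_le_succ fun n => by
    rw [hs, le_add_iff_nonneg_right]
    exact div_nonneg (by linarith [c2 n]) (by positivity)
  have z0 : ∀ a : ℝ, Tendsto (fun n : ℕ => a / 4 ^ n) atTop (𝓝 0) := fun a =>
    tendsto_const_nhds.div_atTop (tendsto_pow_atTop_atTop_of_one_lt (by norm_num))
  have bdd : BddBelow (Set.range fun n => y n - (1 / 3) / 4 ^ n) := by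
    refine ⟨y 0 - (2 / 3) / 4 ^ 0, ?_⟩
    rintro _ ⟨n, rfl⟩
    refine (mono (Nat.zero_le n)).trans ?_
    simp only
    gcongr; norm_num
  have t1 := tendsto_atTop_ciInf anti bdd
  set L := ⨅ n, (y n - (1 / 3) / 4 ^ n) with hL
  have t2 : Tendsto y atTop (𝓝 L) := by simpa using t1.add (z0 (1 / 3))
  have t3 : Tendsto (fun n => y n - (2 / 3) / 4 ^ n) atTop (𝓝 L) := by
    simpa using t2.sub (z0 (2 / 3))
  refine ⟨L, ?_, t2⟩
  rintro ⟨r, hr⟩
  set T : ℕ → ℝ := fun n => h n - 4 ^ n * L with hT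
  have b1 : ∀ n, 1 / 3 ≤ T n := fun n => by
    have := anti.le_of_tendsto t1 n
    simp only [hy, ← sub_div] at this
    rw [le_div_iff₀ (by positivity)] at this
    simp only [hT]; linarith
  have b2 : ∀ n, T n ≤ 2 / 3 := fun n => by
    have := mono.ge_of_tendsto t3 n
    simp only [hy, ← sub_div] at this
    rw [div_le_iff₀ (by positivity)] at this
    simp only [hT]; linarith
  have r1 : ∀ n, T (n + 1) = 4 * T n - c n := fun n => by simp only [hT, h2']; ring
  have r2 : ∀ n m, T n = T m → c n = c m := fun n m e => by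
    have a1 := r1 n
    have a2 := r1 m
    have a3 : ((c n : ℤ) : ℝ) < (c m + 1 : ℤ) := by
      push_cast; linarith [b1 (n + 1), b2 (m + 1)]
    have a4 : ((c m : ℤ) : ℝ) < (c n + 1 : ℤ) := by
      push_cast; linarith [b1 (m + 1), b2 (n + 1)]
    have a5 : (c n : ℤ) < c m + 1 := by exact_mod_cast a3
    have a6 : (c m : ℤ) < c n + 1 := by exact_mod_cast a4
    omega
  have r3 : ∀ n m, T n = T m → ∀ j, T (n + j) = T (m + j) := fun n m e j => by
    induction j with
    | zero => exact e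
    | succ j ih => rw [← add_assoc, ← add_assoc, r1, r1, ih, r2 _ _ ih]
  let g : ℕ → ℤ := fun n => r.den * h n - 4 ^ n * r.num
  have hd : (0:ℝ) < r.den := by exact_mod_cast r.den_pos
  have hg : ∀ n, (g n : ℝ) = r.den * T n := fun n => by
    have : (r : ℝ) * r.den = r.num := by exact_mod_cast Rat.mul_den_eq_num r
    simp only [g, hT, ← hr]; push_cast; rw [← this]; ring
  have inj : Function.Injective g := fun n m e => by
    have : T n = T m := by
      have : (g n : ℝ) = g m := by rw [e]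
      rw [hg, hg] at this
      exact mul_left_cancel₀ hd.ne' this
    exact h3 n m fun j => r2 _ _ (r3 n m this j)
  refine Set.infinite_range_of_injective inj ((Set.finite_Icc (0:ℤ) r.den).subset ?_)
  rintro _ ⟨n, rfl⟩
  have e1 : (0:ℝ) ≤ g n := by rw [hg]; have := b1 n; positivity
  have e2 : (g n : ℝ) ≤ (r.den : ℤ) := by rw [hg]; push_cast; nlinarith [b2 n]
  exact ⟨by exact_mod_cast e1, by exact_mod_cast e2⟩

theorem result :
    ∃ (N D : (RatFunc (ZMod 2))[X]) (z : ℕ → RatFunc (ZMod 2)) (L : ℝ),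
      IsCoprime N D ∧ max N.natDegree D.natDegree = 4 ∧
      (∀ n, D.eval (z n) ≠ 0 ∧ z (n + 1) = N.eval (z n) / D.eval (z n)) ∧
      Tendsto (fun n => (height (z n) : ℝ) / 4 ^ n) atTop (𝓝 L) ∧ Irrational L := by
  choose nx hnx using step
  let s : ℕ → {p // Inv p} := fun n => Nat.rec ⟨(X ^ 2, 1), isCoprime_one_right, by simp, by simp⟩
    (fun _ p => ⟨nx p.1 p.2, (hnx p.1 p.2).1⟩) n
  have hs : ∀ n, (s (n + 1)).1 = nx (s n).1 (s n).2 := fun n => rfl
  let a : ℕ → R := fun n => (s n).1.1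
  let b : ℕ → R := fun n => (s n).1.2
  let c : ℕ → ℕ := fun n => cc (s n).1
  have i1 : ∀ n, IsCoprime (a n) (b n) := fun n => (s n).2.1
  have i2 : ∀ n, (b n).coeff 0 = 1 := fun n => (s n).2.2.1
  have i3 : ∀ n, (b n).natDegree + 2 ≤ (a n).natDegree := fun n => (s n).2.2.2
  have j1 : ∀ n, X ^ c n * a (n + 1) = NN (a n) (b n) := fun n => (hnx _ (s n).2).2.1
  have j2 : ∀ n, X ^ c n * b (n + 1) = DD (a n) (b n) := fun n => (hnx _ (s n).2).2.2.1
  have j3 : ∀ n, (a (n + 1)).natDegree + c n = 4 * (a n).natDegree :=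
    fun n => (hnx _ (s n).2).2.2.2.1
  have hb : ∀ n, b n ≠ 0 := fun n h => by simpa [h] using i2 n
  have hb' : ∀ n, algebraMap R K (b n) ≠ 0 := fun n => by simpa using hb n
  let z : ℕ → K := fun n => algebraMap R K (a n) / algebraMap R K (b n)
  have hh : ∀ n, height (z n) = (a n).natDegree := fun n => by
    rw [height_eq (i1 n) (hb n)]; have := i3 n; omega
  have hv : ∀ n, vv (z n) ≤ 1 := fun n => by
    simp only [z]; rw [map_div₀, vv_eq (i2 n), div_one]; exact vv_le _
  have n3 : (RatFunc.X : K) ≠ 0 := RatFunc.X_ne_zero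
  have nQ : ∀ n, (z n + 1) ^ 2 + RatFunc.X ≠ 0 := fun n h => by
    have := vv_Q (hv n); rw [h] at this; simp at this
  have hz : ∀ n, z (n + 1) = ff (z n) := fun n => by
    have e1 := congrArg (algebraMap R K) (j1 n)
    have e2 := congrArg (algebraMap R K) (j2 n)
    have e3 : algebraMap R K (a n) = z n * algebraMap R K (b n) := by
      simp only [z]; rw [div_mul_cancel₀ _ (hb' n)]
    simp only [NN, DD, QQ, map_mul, map_add, map_pow, RatFunc.algebraMap_X, e3] at e1 e2
    have e4 : z (n + 1) = (RatFunc.X ^ c n * algebraMap R K (a (n + 1))) /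
        (RatFunc.X ^ c n * algebraMap R K (b (n + 1))) := by
      simp only [z]; rw [mul_div_mul_left _ _ (pow_ne_zero _ n3)]
    rw [e4, e1, e2, ff]
    have := hb' n
    have := nQ n
    generalize algebraMap R K (b n) = B at *
    rw [show (z n * B + B) ^ 2 + RatFunc.X * B ^ 2 = B ^ 2 * ((z n + 1) ^ 2 + RatFunc.X) by ring]
    field_simp
  have c12 : ∀ n, 1 ≤ c n ∧ c n ≤ 2 := fun n => by simp only [c, cc]; split_ifs <;> simp
  have sm : StrictMono fun n => (a n).natDegree := strictMono_nat_of_lt_succ fun n => by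
    have := j3 n; have := c12 n; have := i3 n; omega
  have close : ∀ n m, c n = c m → vv (z n - z m) < 1 := fun n m e => by
    have e1 : (a n).coeff 0 = (a m).coeff 0 := by
      simp only [c, cc] at e
      split_ifs at e with h1 h2 h2
      · exact h1.trans h2.symm
      · omega
      · omega
      · exact (zmod_ne _ h1).trans (zmod_ne _ h2).symm
    simp only [z]
    rw [div_sub_div _ _ (hb' n) (hb' m), map_div₀, map_mul, vv_eq (i2 n), vv_eq (i2 m), one_mul,
      div_one, ← map_mul, ← map_mul, ← map_sub]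
    exact vv_lt (by simp [i2, e1])
  obtain ⟨L, hL1, hL2⟩ := digits c (fun n => (a n).natDegree) c12 j3 (fun n m e => by
    have k1 : ∀ j : ℕ, vv (z (n + j) - z (m + j)) = exp (j : ℤ) * vv (z n - z m) := fun j => by
      induction j with
      | zero => simp
      | succ j ih =>
        rw [← add_assoc, ← add_assoc, hz, hz, expand (hv _) (hv _) (close _ _ (e j)), ih,
          ← mul_assoc, ← exp_add]
        push_cast; rw [add_comm]
    have k2 : z n = z m := by
      by_contra hne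
      have k3 : vv (z n - z m) ≠ 0 := by simpa [sub_eq_zero] using hne
      have k4 := close _ _ (e (log (vv (z n - z m))).natAbs)
      rw [k1, ← exp_log k3, log_exp, ← exp_add, ← exp_zero, exp_lt_exp] at k4
      omega
    exact sm.injective (by rw [← hh, ← hh, k2]))
  let t : K := RatFunc.X
  let Q : K[X] := (X + 1) ^ 2 + C t
  have dQ : Q.natDegree = 2 := by simp only [Q]; compute_degree!
  refine ⟨X * (X + 1) * Q + C (t ^ 2), C t * Q, z, L, ?_, ?_, fun n => ⟨?_, ?_⟩, ?_, hL1⟩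
  · refine ⟨C (t ^ 2)⁻¹, -(C (t ^ 3)⁻¹ * (X * (X + 1))), ?_⟩
    have e1 : (C (t ^ 2)⁻¹ : K[X]) * C (t ^ 2) = 1 := by
      rw [← C_mul, inv_mul_cancel₀ (pow_ne_zero _ n3), C_1]
    have e2 : (C (t ^ 3)⁻¹ : K[X]) * C t = C (t ^ 2)⁻¹ := by
      rw [← C_mul]; congr 1; field_simp
    linear_combination e1 - X * (X + 1) * Q * e2
  · have d1 : (X * (X + 1) * Q + C (t ^ 2)).natDegree = 4 := by simp only [Q]; compute_degree!
    rw [d1, natDegree_C_mul n3, dQ]; rfl
  · simpa [Q, n3, t] using nQ n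
  · rw [hz, ff]
    have := nQ n
    simp only [Q, t, eval_add, eval_mul, eval_pow, eval_X, eval_C, eval_one]
    field_simp
  · simpa only [hh] using hL2

end Pool.Agent.Results.MP_e8c887_nt.IrrationalHeight
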